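import Pool.Agent.P.MP_c88791_an.Num

open Polynomial Pool.Agent.P.MP_c88791_an

namespace Pool.Agent.Results.MP_c88791_an.UnitOrder

/-- For every algebraic `l > 0`, `l ≠ 1`, with minimal polynomial `f` (coprime integer
coefficients), the class of the unit in `K_0(Q^l)` is torsion of order exactly `|f(1)|`. -/
theorem result (l : ℝ) (hl : 0 < l) (h1 : l ≠ 1) (_halg : IsAlgebraic ℚ l) (f : ℤ[X])
    (hp : f.IsPrimitive) (hf : Associated (f.map (Int.castRingHom ℚ)) (minpoly ℚ l)) :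
    IsOfFinAddOrder (unitClass l) ∧ addOrderOf (unitClass l) = (f.eval 1).natAbs := by
  have : Fact (0 < l ∧ l ≠ 1) := ⟨hl, h1⟩
  obtain ⟨γ, hγ, h⟩ := eval_one_mem hp hf
  have h2 := upper hγ h
  refine ⟨isOfFinAddOrder_iff_nsmul_eq_zero.2
    ⟨_, Int.natAbs_pos.2 (eval_one_ne hp hf h1), h2⟩, Nat.dvd_antisymm
      (addOrderOf_dvd_of_nsmul_eq_zero h2) ?_⟩
  obtain ⟨δ, hδ, h3⟩ := lower (addOrderOf_nsmul_eq_zero (unitClass l))
  exact eval_one_dvd hp hf hl.ne' hδ h3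

end Pool.Agent.Results.MP_c88791_an.UnitOrder
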